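import Pool.Agent.N469.SM.Law
import Pool.Agent.W93.LM8

set_option autoImplicit false

/-! Correlations of bounded functions with small exponential sums at random shifts whose characteristic function is
large at few frequencies only. -/

namespace Pool.Agent.N469.SL
open Finset
open Pool.Agent.H807R2.Dav
open Pool.Agent.H373R2.T7 (SupSmall exI orth conj_ee ev_L')
open Pool.Agent.W93.DG
open Pool.Agent.W93.RD
open Pool.Agent.W93.LM
open Pool.Agent.W93.AU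
open Pool.Agent.N469.SM (FL char_mod)

/-- the second moment is small -/
theorem fl_varC (f : ℕ → ℂ) (hf : ∀ n, ‖f n‖ ≤ 1) (hs : SupSmall f) (U C : ℕ) : ∃ X₀ : ℕ, ∀ X : ℕ, X₀ ≤ X → ∀ M : ℕ, X ≤ M →
    ∀ (ι : Type) (Ω : Finset ι) (p : ι → ℝ) (Y : ι → ℤ), FL X M C (U + 6) Ω p Y →
    ∀ (g : ℕ → ℂ) (Fb : ℝ), 0 ≤ Fb → (∀ n ∈ Icc 1 X, ‖g n‖ ≤ Fb) →
    ∀ A : ℕ → ℂ, (∀ r, ‖A r‖ = ‖FC g X M r‖ * ‖FC f X M r‖) →
    ∑ ω ∈ Ω, p ω * ‖EE A M (Y ω)‖ ^ 2 ≤ (Fb * (M : ℝ) * (X : ℝ)) ^ 2 / Real.log X ^ U := by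
  classical
  obtain ⟨N1, h1⟩ := hs (U + 6 + C)
  obtain ⟨N3, h3⟩ := ev_L' 20
  refine ⟨N1 + N3 + 4, fun X hX M hXM ι Ω p Yv hlaw gf Fb hFb0 hFb Af hAf => ?_⟩
  have hL := h3 X (by omega)
  obtain ⟨L, hLd⟩ : ∃ L, L = Real.log (X : ℝ) := ⟨_, rfl⟩
  rw [← hLd] at hL ⊢
  have hL0 : 0 < L := by linarith
  have hL1 : 1 ≤ L := by linarith
  have hX0 : (0 : ℝ) < X := by exact_mod_cast (by omega : 0 < X)
  have hM0 : (0 : ℝ) < M := by exact_mod_cast (by omega : 0 < M)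
  have hXMr : (X : ℝ) ≤ M := by exact_mod_cast hXM
  obtain ⟨T0, hT1, hT2⟩ := hlaw.few
  rw [← hLd] at hT1 hT2
  obtain ⟨G, hG⟩ : ∃ G : ℕ → ℂ, G = FC f X M := ⟨_, rfl⟩
  rw [← hG] at hAf
  have hG2 : ∑ r ∈ range M, ‖G r‖ ^ 2 ≤ M * X := by
    rw [hG, FC_pars f X M (by omega) hXM]
    apply mul_le_mul_of_nonneg_left _ hM0.le
    have h4 : ∀ n ∈ Icc 1 X, ‖f n‖ ^ 2 ≤ 1 := fun n _ => pow_le_one₀ (norm_nonneg _) (hf n)
    refine (sum_le_sum h4).trans (le_of_eq ?_)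
    rw [sum_const, Nat.card_Icc, nsmul_eq_mul, Nat.add_sub_cancel, mul_one]
  have hGs : ∀ r, ‖G r‖ ≤ X / L ^ (U + 6 + C) := by
    intro r
    rw [hG, hLd]
    exact h1 X (by omega) ((r : ℝ) / (M : ℝ))
  obtain ⟨Fn, hFn⟩ : ∃ Fn : ℕ → ℝ, Fn = fun r => ‖FC gf X M r‖ := ⟨_, rfl⟩
  have hAf' : ∀ r, ‖Af r‖ = Fn r * ‖G r‖ := fun r => by rw [hAf, hFn]
  have hFn0 : ∀ r, 0 ≤ Fn r := fun r => by rw [hFn]; exact norm_nonneg _
  have hFn1 : ∀ r, Fn r ≤ Fb * X := by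
    intro r
    rw [hFn]
    simp only
    unfold FC
    refine (norm_sum_le _ _).trans ?_
    have e1 : ∀ n ∈ Icc 1 X, ‖gf n * ee ((n : ℝ) * ((r : ℝ) / (M : ℝ)))‖ ≤ Fb := by
      intro n hn
      rw [norm_mul, norm_ee, mul_one]
      exact hFb n hn
    refine (sum_le_card_nsmul _ _ _ e1).trans (le_of_eq ?_)
    rw [Nat.card_Icc, nsmul_eq_mul, Nat.add_sub_cancel, mul_comm]
  have hF2 : ∑ r ∈ range M, Fn r ^ 2 ≤ M * (Fb ^ 2 * X) := by
    rw [hFn]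
    simp only
    rw [FC_pars gf X M (by omega) hXM]
    apply mul_le_mul_of_nonneg_left _ (Nat.cast_nonneg _)
    have h1 : ∀ n ∈ Icc 1 X, ‖gf n‖ ^ 2 ≤ Fb ^ 2 := fun n hn => pow_le_pow_left₀ (norm_nonneg _) (hFb n hn) 2
    refine (sum_le_sum h1).trans (le_of_eq ?_)
    rw [sum_const, Nat.card_Icc, nsmul_eq_mul, Nat.add_sub_cancel, mul_comm]
  obtain ⟨g, hg⟩ : ∃ g : ℕ → ℝ, g = fun t => if t % M ∈ T0 then 1 else 1 / L ^ (U + 6) := ⟨_, rfl⟩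
  have hgt : ∀ t, g t = if t % M ∈ T0 then 1 else 1 / L ^ (U + 6) := fun t => by rw [hg]
  have hvar := gen_var Ω p hlaw.nonneg Yv M (by omega) Af g (by
    intro t
    rw [hgt]
    split_ifs with hc
    · refine (norm_sum_le _ _).trans (le_trans ?_ hlaw.le_one)
      apply sum_le_sum
      intro ω hω
      rw [norm_mul, norm_ee, mul_one, Complex.norm_real, Real.norm_of_nonneg (hlaw.nonneg ω hω)]
    · rw [char_mod Ω p Yv M (by omega) t]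
      exact hT2 _ (mem_range.2 (Nat.mod_lt _ (by omega))) hc)
  refine hvar.trans ?_
  clear hvar
  obtain ⟨T, hTd⟩ : ∃ T, T = ∑ r ∈ range M, Fn r * ‖G r‖ := ⟨_, rfl⟩
  have hT0 : 0 ≤ T := by rw [hTd]; exact sum_nonneg fun r _ => mul_nonneg (hFn0 r) (norm_nonneg _)
  obtain ⟨Y, hY⟩ : ∃ Y, Y = Fb * M * X := ⟨_, rfl⟩
  have hY0 : 0 ≤ Y := by rw [hY]; positivity
  have hT' : T ≤ 1 * L ^ 2 * Y := by
    have e1 := Real.sum_mul_le_sqrt_mul_sqrt (range M) Fn (fun r => ‖G r‖)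
    have e2 : T ≤ √(M * (Fb ^ 2 * X)) * √(M * X) := by
      rw [hTd]
      refine e1.trans ?_
      exact mul_le_mul (Real.sqrt_le_sqrt hF2) (Real.sqrt_le_sqrt hG2) (Real.sqrt_nonneg _) (Real.sqrt_nonneg _)
    refine e2.trans ((sqrt_num3 M X Fb (M * X) hM0.le hX0.le hFb0 le_rfl).trans ?_)
    rw [← hY, one_mul]
    exact le_mul_of_one_le_left hY0 (one_le_pow₀ hL1)
  -- the rows
  have hrow : ∀ r ∈ range M, ∑ r' ∈ range M, ‖Af r'‖ * g (r' + (M - r)) ≤ Y / L ^ (U + 6) + 1 / L ^ (U + 6) * T := by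
    intro r hr
    rw [mem_range] at hr
    rw [← sum_filter_add_sum_filter_not (range M) (fun r' => (r' + (M - r)) % M ∈ T0)]
    apply add_le_add
    · have e1 : ∀ r' ∈ (range M).filter (fun r' => (r' + (M - r)) % M ∈ T0),
          ‖Af r'‖ * g (r' + (M - r)) ≤ Fb * X * (X / L ^ (U + 6 + C)) := by
        intro r' hr'
        rw [mem_filter] at hr'
        rw [hgt, if_pos hr'.2, mul_one, hAf']
        exact mul_le_mul (hFn1 r') (hGs r') (norm_nonneg _) (by positivity)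
      refine (sum_le_card_nsmul _ _ _ e1).trans ?_
      have e2 : ((range M).filter (fun r' => (r' + (M - r)) % M ∈ T0)).card ≤ T0.card := by
        apply card_le_card_of_injOn (fun r' => (r' + (M - r)) % M)
        · intro r' hr'
          rw [mem_coe, mem_filter] at hr'
          rw [mem_coe]
          exact hr'.2
        · intro a ha b hb hab
          rw [mem_coe, mem_filter, mem_range] at ha hb
          simp only at hab
          have h3 : a ≡ b [MOD M] := Nat.ModEq.add_right_cancel' (M - r) hab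
          unfold Nat.ModEq at h3
          rwa [Nat.mod_eq_of_lt ha.1, Nat.mod_eq_of_lt hb.1] at h3
      have e3 : (((range M).filter (fun r' => (r' + (M - r)) % M ∈ T0)).card : ℝ) ≤ L ^ C :=
        (by exact_mod_cast e2 : (_ : ℝ) ≤ (T0.card : ℝ)).trans hT1
      rw [nsmul_eq_mul]
      calc _ ≤ L ^ C * (Fb * X * (X / L ^ (U + 6 + C))) := mul_le_mul_of_nonneg_right e3 (by positivity)
        _ = Fb * X * X / L ^ (U + 6) := by
            rw [pow_add L (U + 6) C]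
            field_simp
        _ ≤ Y / L ^ (U + 6) := by
            apply div_le_div_of_nonneg_right _ (by positivity)
            rw [hY]
            gcongr
    · have e1 : ∀ r' ∈ (range M).filter (fun r' => ¬ (r' + (M - r)) % M ∈ T0),
          ‖Af r'‖ * g (r' + (M - r)) ≤ (Fn r' * ‖G r'‖) * (1 / L ^ (U + 6)) := by
        intro r' hr'
        rw [mem_filter] at hr'
        rw [hgt, if_neg hr'.2, hAf']
      refine (sum_le_sum e1).trans ?_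
      rw [← sum_mul, mul_comm]
      apply mul_le_mul_of_nonneg_left _ (by positivity)
      rw [hTd]
      exact sum_le_sum_of_subset_of_nonneg (filter_subset _ _) fun _ _ _ => mul_nonneg (hFn0 _) (norm_nonneg _)
  have hsum2 : ∑ r ∈ range M, ‖Af r‖ * ∑ r' ∈ range M, ‖Af r'‖ * g (r' + (M - r)) ≤
      T * (Y / L ^ (U + 6) + 1 / L ^ (U + 6) * T) := by
    have : ∀ r ∈ range M, ‖Af r‖ * ∑ r' ∈ range M, ‖Af r'‖ * g (r' + (M - r)) ≤
        (Fn r * ‖G r‖) * (Y / L ^ (U + 6) + 1 / L ^ (U + 6) * T) := fun r hr => by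
      rw [hAf' r]
      exact mul_le_mul_of_nonneg_left (hrow r hr) (mul_nonneg (hFn0 _) (norm_nonneg _))
    refine (sum_le_sum this).trans (le_of_eq ?_)
    rw [← sum_mul, hTd]
  refine hsum2.trans ?_
  rw [← hY]
  exact var_num2 T Y 1 L U hL1 hY0 hT0 zero_le_one hT' (by linarith)

/-- the second moment of the correlations -/
theorem fl_corrC (f : ℕ → ℂ) (hf : ∀ n, ‖f n‖ ≤ 1) (hs : SupSmall f) (U C : ℕ) : ∃ X₀ : ℕ, ∀ X : ℕ, X₀ ≤ X → ∀ M : ℕ, 2 * X ≤ M →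
    ∀ (ι : Type) (Ω : Finset ι) (p : ι → ℝ) (Y : ι → ℤ), FL X M C (U + 6) Ω p Y →
    ∀ N : ℕ, (∀ ω ∈ Ω, -(X : ℤ) < Y ω ∧ (N : ℤ) + Y ω ≤ (X : ℤ)) → N ≤ X →
    ∀ (g : ℕ → ℂ) (Fb : ℝ), 0 ≤ Fb → (∀ n ∈ Icc 1 N, ‖g n‖ ≤ Fb) →
    ∑ ω ∈ Ω, p ω * ‖∑ n ∈ Icc 1 N, g n * exI f ((n : ℤ) + Y ω)‖ ^ 2 ≤ (Fb * (X : ℝ)) ^ 2 / Real.log X ^ U := by
  classical
  obtain ⟨X₀, h0⟩ := fl_varC f hf hs U C
  refine ⟨X₀ + 1, fun X hX M hXM ι Ω p Y hlaw N hY hNX g Fb hFb0 hFb => ?_⟩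
  obtain ⟨g', hg'⟩ : ∃ g' : ℕ → ℂ, g' = fun n => if n ≤ N then g n else 0 := ⟨_, rfl⟩
  have hg0 : ∀ n, N < n → g' n = 0 := by
    intro n hn
    rw [hg']
    simp only
    rw [if_neg (by omega)]
  have hg1 : ∀ n, n ≤ N → g' n = g n := by
    intro n hn
    rw [hg']
    simp only
    rw [if_pos hn]
  have h1 := h0 X (by omega) M (by omega) ι Ω p Y hlaw (fun n => (starRingEnd ℂ) (g' n)) Fb hFb0 (by
    intro n hn
    rw [RCLike.norm_conj]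
    rcases Nat.lt_or_ge N n with h | h
    · rw [hg0 n h, norm_zero]; exact hFb0
    · rw [hg1 n h]; exact hFb n (mem_Icc.2 ⟨(mem_Icc.1 hn).1, h⟩))
    (fun r => (starRingEnd ℂ) (FC (fun n => (starRingEnd ℂ) (g' n)) X M r) * FC f X M r) (by
      intro r
      rw [norm_mul, RCLike.norm_conj])
  have hX1 : 1 ≤ X := by omega
  have hM0 : (0 : ℝ) < (M : ℝ) := by exact_mod_cast (by omega : 0 < M)
  have h2 : ∀ ω ∈ Ω, p ω * ‖EE (fun r => (starRingEnd ℂ) (FC (fun n => (starRingEnd ℂ) (g' n)) X M r) *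
      FC f X M r) M (Y ω)‖ ^ 2 =
      (M : ℝ) ^ 2 * (p ω * ‖∑ n ∈ Icc 1 N, g n * exI f ((n : ℤ) + Y ω)‖ ^ 2) := by
    intro ω hω
    have h3 := EE_corrC g' f X M N hX1 hXM hNX hg0 (Y ω) (hY ω hω).1 (hY ω hω).2
    rw [h3, norm_mul, Complex.norm_natCast]
    have h4 : ∑ n ∈ Icc 1 N, g' n * (if 1 ≤ (n : ℤ) + Y ω then f ((n : ℤ) + Y ω).toNat else 0) =
        ∑ n ∈ Icc 1 N, g n * exI f ((n : ℤ) + Y ω) := by
      apply sum_congr rfl
      intro n hn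
      rw [hg1 n (mem_Icc.1 hn).2]
      rfl
    rw [h4]
    ring
  rw [sum_congr rfl h2, ← mul_sum] at h1
  have h6 : (M : ℝ) ^ 2 * ∑ ω ∈ Ω, p ω * ‖∑ n ∈ Icc 1 N, g n * exI f ((n : ℤ) + Y ω)‖ ^ 2 ≤
      (M : ℝ) ^ 2 * ((Fb * (X : ℝ)) ^ 2 / Real.log X ^ U) := by
    refine h1.trans (le_of_eq ?_)
    ring
  exact le_of_mul_le_mul_left h6 (by positivity)

/-- powers of the logarithm are small -/
lemma log_pow_small (j : ℕ) (c : ℝ) (hc : 0 < c) : ∃ X₀ : ℕ, ∀ X : ℕ, X₀ ≤ X → c * Real.log X ^ j ≤ X := by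
  have h1 := (Real.isLittleO_pow_log_id_atTop (n := j)).bound (c := 1 / c) (by positivity)
  have h2 := tendsto_natCast_atTop_atTop (R := ℝ) |>.eventually h1
  obtain ⟨X₀, h3⟩ := Filter.eventually_atTop.1 h2
  refine ⟨X₀ + 1, fun X hX => ?_⟩
  have h4 := h3 X (by omega)
  simp only [id_eq] at h4
  have hlog : 0 ≤ Real.log (X : ℝ) := Real.log_natCast_nonneg _
  rw [Real.norm_of_nonneg (by positivity), Real.norm_of_nonneg (by positivity), one_div, ← div_eq_inv_mul, le_div_iff₀ hc] at h4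
  linarith

/-- for almost all shifts, all the correlations are small -/
theorem fl_probC (f : ℕ → ℂ) (hf : ∀ n, ‖f n‖ ≤ 1) (hs : SupSmall f) (T U C : ℕ) : ∃ X₀ : ℕ, ∀ X : ℕ, X₀ ≤ X → ∀ M : ℕ, 2 * X ≤ M →
    ∀ (ι : Type) (Ω : Finset ι) (p : ι → ℝ) (Y : ι → ℤ), FL X M C (4 * U + 4 * T + 1 + 6) Ω p Y →
    ∀ Q : ℕ, (∀ ω ∈ Ω, -(X : ℤ) < Y ω ∧ (Q : ℤ) + Y ω ≤ (X : ℤ)) → Q ≤ X →
    ∀ (L : ℕ), (L : ℝ) ≤ Real.log X ^ T → ∀ (g : ℕ → ℕ → ℂ), (∀ l < L, ∀ n, 1 ≤ n → n ≤ Q → ‖g l n‖ ≤ Real.log X ^ T) →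
    ∀ E : ι → Prop, [DecidablePred E] →
    (∀ ω ∈ Ω, E ω → ∃ l < L, ∃ N : ℕ, N ≤ Q ∧
      (X : ℝ) / Real.log X ^ U < ‖∑ n ∈ Icc 1 N, g l n * exI f ((n : ℤ) + Y ω)‖) →
    ∑ ω ∈ Ω, (if E ω then p ω else 0) ≤ 1 / Real.log X ^ U := by
  classical
  obtain ⟨k₀, h0⟩ := fl_corrC f hf hs (4 * U + 4 * T + 1) C
  obtain ⟨k1, h1⟩ := ev_L' (4 * (4 * (1 : ℝ) + 1))
  obtain ⟨k2, h2⟩ := log_pow_small (U + T) 4 (by norm_num)
  refine ⟨k₀ + k1 + k2 + 1, fun X hX M hXM ι Ω p Y hlaw Q hYQ hQX L hL g hg E _ hE => ?_⟩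
  have hX0 : (0 : ℝ) < X := by exact_mod_cast (by omega : 0 < X)
  have hK1 := h1 X (by omega)
  have hX4 := h2 X (by omega)
  obtain ⟨K, hK⟩ : ∃ K, K = Real.log (X : ℝ) := ⟨_, rfl⟩
  rw [← hK] at hK1 hX4 hL hg hE ⊢
  have hkr : (1 : ℝ) ≤ K := by linarith
  have hk0 : (0 : ℝ) < K := by linarith
  have hKp : 0 < K ^ (U + T) := by positivity
  obtain ⟨Dg, hD⟩ : ∃ Dg, Dg = ⌊(X : ℝ) / (2 * K ^ (U + T))⌋₊ := ⟨_, rfl⟩
  have hx2 : 2 ≤ (X : ℝ) / (2 * K ^ (U + T)) := by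
    rw [le_div_iff₀ (by positivity)]
    linarith
  have g1 : 1 ≤ Dg := by
    rw [hD]
    exact Nat.le_floor (by push_cast; linarith)
  have g2 : (Dg : ℝ) * K ^ (U + T) ≤ X / 2 := by
    have e1 : (Dg : ℝ) ≤ (X : ℝ) / (2 * K ^ (U + T)) := by rw [hD]; exact Nat.floor_le (by positivity)
    rw [le_div_iff₀ (by positivity)] at e1
    linarith
  have g2' : (X : ℝ) / (4 * K ^ (U + T)) ≤ Dg := by
    have e1 : (X : ℝ) / (2 * K ^ (U + T)) < Dg + 1 := by rw [hD]; exact Nat.lt_floor_add_one _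
    have e2 : (X : ℝ) / (2 * K ^ (U + T)) = 2 * ((X : ℝ) / (4 * K ^ (U + T))) := by
      field_simp
      norm_num
    linarith
  obtain ⟨S, hS⟩ : ∃ S : ℕ → ℕ → ι → ℝ, S = fun l j ω => ‖∑ m ∈ Icc 1 (j * Dg), (if m ≤ Q then g l m else 0) * exI f ((m : ℤ) + Y ω)‖ := ⟨_, rfl⟩
  have hS0 : ∀ l j ω, 0 ≤ S l j ω := by
    intro l j ω
    rw [hS]
    exact norm_nonneg _
  obtain ⟨Jq, hJq⟩ : ∃ Jq, Jq = Q / Dg := ⟨_, rfl⟩
  have g3 : (Jq : ℝ) ≤ 4 * K ^ (U + T) := by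
    have e1 : Jq * Dg ≤ X := by
      rw [hJq]
      exact (Nat.div_mul_le_self _ _).trans hQX
    have e2 : (Jq : ℝ) * Dg ≤ X := by exact_mod_cast e1
    have e3 : (Jq : ℝ) * ((X : ℝ) / (4 * K ^ (U + T))) ≤ X := (mul_le_mul_of_nonneg_left g2' (Nat.cast_nonneg _)).trans e2
    rw [mul_div_assoc', div_le_iff₀ (by positivity)] at e3
    have e4 : (Jq : ℝ) * X ≤ (4 * K ^ (U + T)) * X := by linarith
    exact le_of_mul_le_mul_right e4 hX0
  have hJD : ∀ j ∈ range (Jq + 1), j * Dg ≤ Q := by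
    intro j hj
    rw [mem_range] at hj
    calc j * Dg ≤ Jq * Dg := Nat.mul_le_mul_right _ (by omega)
      _ ≤ Q := by rw [hJq]; exact Nat.div_mul_le_self _ _
  have hmom : ∀ l ∈ range L, ∀ j ∈ range (Jq + 1), ∑ ω ∈ Ω, p ω * S l j ω ^ 2 ≤
      (K ^ T * (X : ℝ)) ^ 2 / K ^ (4 * U + 4 * T + 1) := by
    intro l hl j hj
    have hjD := hJD j hj
    have e1 := h0 X (by omega) M hXM ι Ω p Y hlaw (j * Dg) (fun ω hω => ⟨(hYQ ω hω).1, by
      have := (hYQ ω hω).2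
      have h3 : ((j * Dg : ℕ) : ℤ) ≤ Q := by exact_mod_cast hjD
      linarith⟩) (hjD.trans hQX) (fun m => if m ≤ Q then g l m else 0) (K ^ T) (by positivity) (by
      intro m hm
      rw [mem_Icc] at hm
      rw [if_pos (hm.2.trans hjD)]
      exact hg l (mem_range.1 hl) m hm.1 (hm.2.trans hjD))
    rw [← hK] at e1
    refine le_trans (le_of_eq ?_) e1
    rw [hS]
  obtain ⟨Cc, hC⟩ : ∃ Cc : ℝ, Cc = 4 * K ^ (2 * U) / (X : ℝ) ^ 2 := ⟨_, rfl⟩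
  have hC0 : 0 ≤ Cc := by rw [hC]; positivity
  have hpt : ∀ ω ∈ Ω, (if E ω then p ω else 0) ≤ ∑ l ∈ range L, ∑ j ∈ range (Jq + 1), Cc * (p ω * S l j ω ^ 2) := by
    intro ω hω
    have hP0 : 0 ≤ p ω := hlaw.nonneg ω hω
    have t1 : ∀ l ∈ range L, ∀ j ∈ range (Jq + 1), 0 ≤ Cc * (p ω * S l j ω ^ 2) := fun l _ j _ => by positivity
    by_cases hEd : E ω
    swap
    · rw [if_neg hEd]
      exact sum_nonneg fun l hl => sum_nonneg (t1 l hl)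
    rw [if_pos hEd]
    obtain ⟨l, hl, N, hN, hbadd⟩ := hE ω hω hEd
    have e2 := grid_step (fun m => exI f ((m : ℤ) + Y ω)) (fun m => if m ≤ Q then g l m else 0) N Dg g1 (K ^ T)
      (fun m => exI_norm f hf _) (by
        intro m hm
        rw [mem_Icc] at hm
        rw [if_pos (hm.2.trans hN)]
        exact hg l hl m hm.1 (hm.2.trans hN)) (by positivity)
    have e3 : ∑ m ∈ Icc 1 N, g l m * exI f ((m : ℤ) + Y ω) =
        ∑ m ∈ Icc 1 N, (if m ≤ Q then g l m else 0) * exI f ((m : ℤ) + Y ω) := by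
      apply sum_congr rfl
      intro m hm
      rw [mem_Icc] at hm
      rw [if_pos (hm.2.trans hN)]
    rw [e3] at hbadd
    have hj : N / Dg ∈ range (Jq + 1) := by
      rw [mem_range, hJq]
      have : N / Dg ≤ Q / Dg := Nat.div_le_div_right hN
      omega
    have e4 : S l (N / Dg) ω = ‖∑ m ∈ Icc 1 (N / Dg * Dg), (if m ≤ Q then g l m else 0) * exI f ((m : ℤ) + Y ω)‖ := by rw [hS]
    rw [← e4] at e2
    have e5 : K ^ T * Dg ≤ (X : ℝ) / K ^ U / 2 := by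
      have q1 : (Dg : ℝ) * K ^ (U + T) = K ^ T * Dg * K ^ U := by rw [pow_add]; ring
      rw [q1] at g2
      have q2 : K ^ T * Dg ≤ (X : ℝ) / 2 / K ^ U := by
        rw [le_div_iff₀ (by positivity)]
        exact g2
      refine q2.trans (le_of_eq ?_)
      ring
    have e6 : (X : ℝ) / K ^ U / 2 ≤ S l (N / Dg) ω := by linarith
    have e7 : 1 ≤ Cc * S l (N / Dg) ω ^ 2 := by
      have q1 : ((X : ℝ) / K ^ U / 2) ^ 2 ≤ S l (N / Dg) ω ^ 2 := pow_le_pow_left₀ (by positivity) e6 2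
      have q2 : Cc * ((X : ℝ) / K ^ U / 2) ^ 2 = 1 := by
        rw [hC, pow_mul', div_pow, div_pow]
        field_simp
        norm_num
      rw [← q2]
      exact mul_le_mul_of_nonneg_left q1 hC0
    have e8 : p ω ≤ Cc * (p ω * S l (N / Dg) ω ^ 2) := by
      calc p ω = p ω * 1 := (mul_one _).symm
        _ ≤ p ω * (Cc * S l (N / Dg) ω ^ 2) := mul_le_mul_of_nonneg_left e7 hP0
        _ = _ := by ring
    have e9 := single_le_sum (f := fun j => Cc * (p ω * S l j ω ^ 2)) (t1 l (mem_range.2 hl)) hj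
    have e10 := single_le_sum (f := fun l => ∑ j ∈ range (Jq + 1), Cc * (p ω * S l j ω ^ 2)) (fun l hl => sum_nonneg (t1 l hl)) (mem_range.2 hl)
    exact e8.trans (e9.trans e10)
  refine (sum_le_sum hpt).trans ?_
  rw [sum_comm]
  have g4 : ∀ l ∈ range L, ∑ ω ∈ Ω, ∑ j ∈ range (Jq + 1), Cc * (p ω * S l j ω ^ 2) ≤
      (Jq + 1 : ℕ) * (Cc * ((K ^ T * (X : ℝ)) ^ 2 / K ^ (4 * U + 4 * T + 1))) := by
    intro l hl
    rw [sum_comm]
    have g5 : ∀ j ∈ range (Jq + 1), ∑ ω ∈ Ω, Cc * (p ω * S l j ω ^ 2) ≤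
        Cc * ((K ^ T * (X : ℝ)) ^ 2 / K ^ (4 * U + 4 * T + 1)) := by
      intro j hj
      rw [← mul_sum]
      exact mul_le_mul_of_nonneg_left (hmom l hl j hj) hC0
    refine (sum_le_sum g5).trans (le_of_eq ?_)
    rw [sum_const, card_range, nsmul_eq_mul]
  refine (sum_le_sum g4).trans ?_
  rw [sum_const, card_range, nsmul_eq_mul]
  have g6 : Cc * ((K ^ T * (X : ℝ)) ^ 2 / K ^ (4 * U + 4 * T + 1)) = 4 / K ^ (2 * U + 2 * T + 1) := by
    rw [hC, show 4 * U + 4 * T + 1 = 2 * U + 2 * T + (2 * U + 2 * T + 1) by ring, pow_add K (2 * U + 2 * T) (2 * U + 2 * T + 1),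
      pow_add K (2 * U) (2 * T), mul_pow, ← pow_mul K T 2, mul_comm T 2]
    field_simp
  rw [g6]
  have g7 : ((Jq + 1 : ℕ) : ℝ) ≤ (4 * 1 + 1) * K ^ (U + T) := by
    have q0 : (1 : ℝ) ≤ K ^ (U + T) := one_le_pow₀ hkr
    push_cast
    linarith
  have g8 : (L : ℝ) * (((Jq + 1 : ℕ) : ℝ) * (4 / K ^ (2 * U + 2 * T + 1))) ≤
      K ^ T * (((4 * 1 + 1) * K ^ (U + T)) * (4 / K ^ (2 * U + 2 * T + 1))) := by
    apply mul_le_mul hL _ (by positivity) (by positivity)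
    exact mul_le_mul_of_nonneg_right g7 (by positivity)
  refine g8.trans ?_
  have g9 : K ^ T * (((4 * 1 + 1) * K ^ (U + T)) * (4 / K ^ (2 * U + 2 * T + 1))) =
      1 / K ^ U * (4 * (4 * 1 + 1) / K) := by
    rw [show 2 * U + 2 * T + 1 = U + T + (U + T) + 1 by ring, pow_add K (U + T + (U + T)) 1, pow_add K (U + T) (U + T),
      pow_add K U T]
    field_simp
  rw [g9]
  apply mul_le_of_le_one_right (by positivity)
  rw [div_le_one hk0]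
  exact hK1

end Pool.Agent.N469.SL
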