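import Pool.Agent.N469.SL.Corr
import Pool.Agent.N469.SQ.Gold

set_option autoImplicit false

/-! Correlations with one random shift composed of primes from `P`. -/

namespace Pool.Agent.N469.SL
open Finset
open Pool.Agent.H373R2.T7 (SupSmall exI ev_L')
open Pool.Agent.W93.LM (spread)
open Pool.Agent.N469.SM (FL SS mem_SS)
open Pool.Agent.N469.SQ

/-- one random shift, with weights bounded by a power of the logarithm -/
theorem one_shift (f : ℕ → ℂ) (hf : ∀ n, ‖f n‖ ≤ 1) (hs : SupSmall f) (δ : ℝ) (hδ : 0 < δ) (B K T W U : ℕ) (κ : ℤ) (hκ : κ ≠ 0) :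
    ∃ N₀ : ℕ, ∀ N, N₀ ≤ N → ∀ (Ω : Finset ℕ) (p : ℕ → ℝ), Sm δ B K N Ω p → ∀ c : ℤ, |c| ≤ B * N →
    ∀ (L : ℕ), (L : ℝ) ≤ Real.log N ^ T → ∀ (α : ℕ → ℕ) (g : ℕ → ℕ → ℂ), (∀ l < L, 1 ≤ α l) →
      (∀ l < L, ∀ n, 1 ≤ n → α l * n ≤ B * N → ‖g l n‖ ≤ Real.log N ^ T) →
    ∀ E : ℕ → Prop, [DecidablePred E] →
    (∀ v ∈ Ω, E v → ∃ d : ℤ, ((|d| : ℤ) : ℝ) ≤ Real.log N ^ W ∧ ∃ l < L, ∃ x : ℕ, α l * x ≤ B * N ∧
      (N : ℝ) / Real.log N ^ U < ‖∑ n ∈ Icc 1 x, g l n * exI f (((α l * n : ℕ) : ℤ) + (c + κ * v + d))‖) →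
    ∑ v ∈ Ω, (if E v then p v else 0) ≤ 1 / Real.log N ^ U := by
  classical
  obtain ⟨A, hA⟩ : ∃ A, A = 2 * B + κ.natAbs + 2 := ⟨_, rfl⟩
  obtain ⟨U', hU'⟩ : ∃ U', U' = U + W + 2 := ⟨_, rfl⟩
  obtain ⟨C, N1, h1⟩ := sm_FLz δ hδ B K A (4 * U' + 4 * T + 1 + 6) κ (by omega) hκ
  obtain ⟨X₀, h2⟩ := fl_probC f hf hs T U' C
  obtain ⟨N3, h3⟩ := log_pow_small W 1 one_pos
  obtain ⟨N4, h4⟩ := ev_L' (A + 3)
  refine ⟨N1 + X₀ + N3 + N4 + 3, fun N hN Ω p hL c hc L hLT α g hα hg E _ hE => ?_⟩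
  obtain ⟨X, hX⟩ : ∃ X, X = A * N := ⟨_, rfl⟩
  have hNX : N ≤ X := by rw [hX]; exact Nat.le_mul_of_pos_left _ (by omega)
  have hN0 : (0 : ℝ) < N := by exact_mod_cast (by omega : 0 < N)
  have hlogNX : Real.log N ≤ Real.log X := Real.log_le_log hN0 (by exact_mod_cast hNX)
  have hlN := h4 N (by omega)
  have hlW := h3 N (by omega)
  rw [one_mul] at hlW
  obtain ⟨l, hl⟩ : ∃ l, l = Real.log (N : ℝ) := ⟨_, rfl⟩
  rw [← hl] at hlogNX hlN hlW hLT hg hE ⊢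
  have hA0 : (0 : ℝ) ≤ A := Nat.cast_nonneg _
  have hl3 : 3 ≤ l := by linarith
  have hl1 : 1 ≤ l := by linarith
  have hl0 : 0 < l := by linarith
  obtain ⟨w, hw⟩ : ∃ w : ℕ, w = ⌊l ^ W⌋₊ := ⟨_, rfl⟩
  have hwl : (w : ℝ) ≤ l ^ W := by rw [hw]; exact Nat.floor_le (by positivity)
  have hwN : w ≤ N := by exact_mod_cast hwl.trans hlW
  have hvN : ∀ v ∈ Ω, v ≤ N := by
    obtain ⟨P, y, x, hxN, _, _, _, _, _, rfl, _⟩ := hL
    intro v hv
    exact (mem_SS.1 hv).1.2.trans hxN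
  -- the exceptional set for a given displacement
  have hd : ∀ d ∈ Icc (-(w : ℤ)) w, ∑ v ∈ Ω, (if ∃ l < L, ∃ m : ℕ, m ≤ B * N ∧
      (X : ℝ) / Real.log X ^ U' < ‖∑ n ∈ Icc 1 m, (if α l ∣ n then g l (n / α l) else 0) * exI f ((n : ℤ) + ((c + d) + κ * v))‖
        then p v else 0) ≤ 1 / Real.log X ^ U' := by
    intro d hd
    rw [mem_Icc] at hd
    obtain ⟨g1, g2, g3⟩ := h1 N (by omega) Ω p hL (c + d)
    rw [← hX] at g3
    apply h2 X (by omega) (2 * X) le_rfl ℕ Ω p _ g3 (B * N) _ _ L (hLT.trans (pow_le_pow_left₀ hl0.le hlogNX T))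
      (fun l n => if α l ∣ n then g l (n / α l) else 0) _ _ (fun v _ h => h)
    · intro v hv
      have e1 := abs_le.1 hc
      have e2 : (v : ℤ) ≤ N := by exact_mod_cast hvN v hv
      have e3 : |κ * (v : ℤ)| ≤ (κ.natAbs : ℤ) * N := by
        rw [abs_mul, Int.abs_eq_natAbs κ, abs_of_nonneg (Int.natCast_nonneg v)]
        exact mul_le_mul_of_nonneg_left e2 (Int.natCast_nonneg _)
      have e4 := abs_le.1 e3
      have e5 : (X : ℤ) = 2 * (B * N) + (κ.natAbs : ℤ) * N + 2 * N := by rw [hX, hA]; push_cast; ring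
      have e6 : (w : ℤ) ≤ N := by exact_mod_cast hwN
      have e7 : (0 : ℤ) < N := by omega
      have e8 : (0 : ℤ) ≤ B * N := by positivity
      have e9 : ((B * N : ℕ) : ℤ) = B * N := Nat.cast_mul _ _
      rw [e5, e9]
      constructor <;> linarith
    · rw [hX, hA]
      exact Nat.mul_le_mul_right _ (by omega)
    · intro l' hl' n hn1 hn2
      split_ifs with hdiv
      · have e1 : α l' * (n / α l') = n := Nat.mul_div_cancel' hdiv
        refine (hg l' hl' (n / α l') ?_ (by rw [e1]; exact hn2)).trans (pow_le_pow_left₀ hl0.le hlogNX T)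
        exact Nat.div_pos (Nat.le_of_dvd (by omega) hdiv) (hα l' hl')
      · rw [norm_zero]
        have : 0 ≤ Real.log (X : ℝ) := hl0.le.trans hlogNX
        positivity
  have hp0 : ∀ v ∈ Ω, 0 ≤ p v := fun v hv => (h1 N (by omega) Ω p hL 0).2.2.nonneg v hv
  have hXU : (X : ℝ) / Real.log X ^ U' ≤ N / l ^ U := by
    have hlX0 : 0 < Real.log (X : ℝ) := lt_of_lt_of_le hl0 hlogNX
    rw [div_le_div_iff₀ (by positivity) (by positivity)]
    have e1 : (X : ℝ) = A * N := by rw [hX]; push_cast; ring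
    have e2 : l ^ U' ≤ Real.log X ^ U' := pow_le_pow_left₀ hl0.le hlogNX U'
    have e3 : (A : ℝ) * l ^ U ≤ l ^ U' := by
      rw [hU', show U + W + 2 = 1 + (U + (W + 1)) by ring, pow_add, pow_one, pow_add]
      have e4 : (A : ℝ) ≤ l := by linarith
      have e5 : l ^ U ≤ l ^ U * l ^ (W + 1) := le_mul_of_one_le_right (by positivity) (one_le_pow₀ hl1)
      exact mul_le_mul e4 e5 (by positivity) (by positivity)
    calc (X : ℝ) * l ^ U = N * (A * l ^ U) := by rw [e1]; ring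
      _ ≤ N * l ^ U' := mul_le_mul_of_nonneg_left e3 hN0.le
      _ ≤ N * Real.log X ^ U' := mul_le_mul_of_nonneg_left e2 hN0.le
  have hpt : ∀ v ∈ Ω, (if E v then p v else 0) ≤ ∑ d ∈ Icc (-(w : ℤ)) w, (if ∃ l < L, ∃ m : ℕ, m ≤ B * N ∧
      (X : ℝ) / Real.log X ^ U' < ‖∑ n ∈ Icc 1 m, (if α l ∣ n then g l (n / α l) else 0) * exI f ((n : ℤ) + ((c + d) + κ * v))‖
        then p v else 0) := by
    intro v hv
    have hpv := hp0 v hv
    by_cases hEv : E v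
    swap
    · rw [if_neg hEv]
      exact sum_nonneg fun d _ => by split_ifs <;> [exact hpv; exact le_rfl]
    rw [if_pos hEv]
    obtain ⟨d, hd1, l', hl', x, hx, hbig⟩ := hE v hv hEv
    have hdw : d ∈ Icc (-(w : ℤ)) w := by
      rw [mem_Icc, ← abs_le]
      have e1 : |d|.toNat ≤ w := by
        rw [hw]
        apply Nat.le_floor
        have e2 : ((|d|.toNat : ℕ) : ℤ) = |d| := Int.toNat_of_nonneg (abs_nonneg d)
        have e3 : ((|d|.toNat : ℕ) : ℝ) = ((|d| : ℤ) : ℝ) := by exact_mod_cast congrArg (Int.cast : ℤ → ℝ) e2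
        rw [e3]
        exact hd1
      have e2 : ((|d|.toNat : ℕ) : ℤ) = |d| := Int.toNat_of_nonneg (abs_nonneg d)
      rw [← e2]
      exact_mod_cast e1
    refine le_trans (le_of_eq ?_) (single_le_sum (f := fun d : ℤ => (if ∃ l < L, ∃ m : ℕ, m ≤ B * N ∧
      (X : ℝ) / Real.log X ^ U' < ‖∑ n ∈ Icc 1 m, (if α l ∣ n then g l (n / α l) else 0) * exI f ((n : ℤ) + ((c + d) + κ * v))‖
        then p v else 0)) (fun d _ => by
          by_cases hh : ∃ l < L, ∃ m : ℕ, m ≤ B * N ∧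
              (X : ℝ) / Real.log X ^ U' < ‖∑ n ∈ Icc 1 m, (if α l ∣ n then g l (n / α l) else 0) * exI f ((n : ℤ) + ((c + d) + κ * v))‖
          · simp only [if_pos hh]; exact hpv
          · simp only [if_neg hh]; exact le_rfl) hdw)
    rw [if_pos]
    refine ⟨l', hl', α l' * x, hx, ?_⟩
    refine lt_of_le_of_lt hXU (lt_of_lt_of_eq hbig ?_)
    rw [← spread (fun n => exI f ((n : ℤ) + ((c + d) + κ * v))) (g l') (α l') x (hα l' hl')]
    congr 1
    apply sum_congr rfl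
    intro n _
    congr 2
    ring
  refine (sum_le_sum hpt).trans ?_
  rw [sum_comm]
  refine (sum_le_sum hd).trans ?_
  rw [sum_const, nsmul_eq_mul, Int.card_Icc]
  have hcard : (((w : ℤ) + 1 - -(w : ℤ)).toNat : ℝ) ≤ 3 * l ^ W := by
    have e1 : ((w : ℤ) + 1 - -(w : ℤ)).toNat = 2 * w + 1 := by omega
    rw [e1]
    push_cast
    have : 1 ≤ l ^ W := one_le_pow₀ hl1
    linarith
  have hlX0 : 0 < Real.log (X : ℝ) := lt_of_lt_of_le hl0 hlogNX
  calc (((w : ℤ) + 1 - -(w : ℤ)).toNat : ℝ) * (1 / Real.log X ^ U') ≤ (3 * l ^ W) * (1 / l ^ U') := by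
        apply mul_le_mul hcard _ (by positivity) (by positivity)
        exact one_div_le_one_div_of_le (by positivity) (pow_le_pow_left₀ hl0.le hlogNX U')
    _ ≤ 1 / l ^ U := by
        rw [mul_one_div, div_le_div_iff₀ (by positivity) (by positivity), hU']
        have e1 : (3 : ℝ) ≤ l ^ 2 := by nlinarith
        calc 3 * l ^ W * l ^ U = l ^ U * l ^ W * 3 := by ring
          _ ≤ l ^ U * l ^ W * l ^ 2 := mul_le_mul_of_nonneg_left e1 (by positivity)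
          _ = 1 * l ^ (U + W + 2) := by ring

end Pool.Agent.N469.SL
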