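import Pool.Agent.N469.SL.One

set_option autoImplicit false

/-! Correlations with several random shifts composed of primes from sets `P i`. -/

namespace Pool.Agent.N469.SL
open Finset
open Pool.Agent.H373R2.T7 (SupSmall exI ev_L')
open Pool.Agent.W93.LM (exI_norm)
open Pool.Agent.N469.SM (FL SS mem_SS)
open Pool.Agent.N469.SQ

open Classical in
/-- a condition which is rare in one coordinate is rare -/
lemma fub {s : ℕ} (i : Fin s) (R : Fin s → Finset ℕ) (p : Fin s → ℕ → ℝ) (h0 : ∀ j, ∀ v ∈ R j, 0 ≤ p j v)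
    (h1 : ∀ j, ∑ v ∈ R j, p j v = 1) (E : (Fin s → ℕ) → Prop) (x : ℝ)
    (h : ∀ v : Fin s → ℕ, (∀ j, v j ∈ R j) → ∑ w ∈ R i, (if E (Function.update v i w) then p i w else 0) ≤ x) :
    ∑ v ∈ Fintype.piFinset R, (if E v then ∏ j, p j (v j) else 0) ≤ x := by
  have hR : (R i).Nonempty := by
    rw [nonempty_iff_ne_empty]
    intro hR
    have := h1 i
    rw [hR, sum_empty] at this
    exact zero_ne_one this
  obtain ⟨r, hr⟩ := hR
  have e1 : ∑ v ∈ Fintype.piFinset R, (if E v then ∏ j, p j (v j) else 0) =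
      ∑ q ∈ R i ×ˢ Fintype.piFinset (fun j : {j // j ≠ i} => R (j : Fin s)),
        (if E ((Equiv.funSplitAt i ℕ).symm q) then p i q.1 * ∏ j : {j // j ≠ i}, p (j : Fin s) (q.2 j) else 0) := by
    apply sum_nbij' (fun v => (Equiv.funSplitAt i ℕ) v) (fun q => (Equiv.funSplitAt i ℕ).symm q)
    · intro v hv
      rw [Fintype.mem_piFinset] at hv
      rw [mem_product, Fintype.mem_piFinset]
      exact ⟨hv i, fun j => hv j⟩
    · intro q hq
      rw [mem_product, Fintype.mem_piFinset] at hq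
      rw [Fintype.mem_piFinset]
      intro j
      rw [Equiv.funSplitAt_symm_apply]
      split_ifs with hj
      · rw [hj]; exact hq.1
      · exact hq.2 ⟨j, hj⟩
    · intro v _; exact Equiv.symm_apply_apply _ _
    · intro q _; exact Equiv.apply_symm_apply _ _
    · intro v _
      rw [Equiv.symm_apply_apply, Fintype.prod_eq_mul_prod_subtype_ne (fun j => p j (v j)) i]
      rfl
  rw [e1, sum_product_right]
  have e2 : ∀ u ∈ Fintype.piFinset (fun j : {j // j ≠ i} => R (j : Fin s)),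
      ∑ w ∈ R i, (if E ((Equiv.funSplitAt i ℕ).symm (w, u)) then p i w * ∏ j : {j // j ≠ i}, p (j : Fin s) (u j) else 0) ≤
        x * ∏ j : {j // j ≠ i}, p (j : Fin s) (u j) := by
    intro u hu
    rw [Fintype.mem_piFinset] at hu
    have hP : 0 ≤ ∏ j : {j // j ≠ i}, p (j : Fin s) (u j) := prod_nonneg fun j _ => h0 _ _ (hu j)
    have hv := h ((Equiv.funSplitAt i ℕ).symm (r, u)) (by
      intro j
      rw [Equiv.funSplitAt_symm_apply]
      split_ifs with hj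
      · rw [hj]; exact hr
      · exact hu ⟨j, hj⟩)
    refine le_trans (le_of_eq ?_) (mul_le_mul_of_nonneg_right hv hP)
    rw [sum_mul]
    apply sum_congr rfl
    intro w _
    have e3 : Function.update ((Equiv.funSplitAt i ℕ).symm (r, u)) i w = (Equiv.funSplitAt i ℕ).symm (w, u) := by
      funext j
      by_cases hj : j = i
      · subst hj
        rw [Function.update_self, Equiv.funSplitAt_symm_apply]
        simp
      · rw [Function.update_of_ne hj, Equiv.funSplitAt_symm_apply, Equiv.funSplitAt_symm_apply]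
        simp [hj]
    rw [e3, ite_mul, zero_mul]
  refine (sum_le_sum e2).trans ?_
  rw [← mul_sum]
  have e3 : ∑ u ∈ Fintype.piFinset (fun j : {j // j ≠ i} => R (j : Fin s)), ∏ j : {j // j ≠ i}, p (j : Fin s) (u j) = 1 := by
    rw [← prod_univ_sum (fun j : {j // j ≠ i} => R (j : Fin s)) (fun j v => p (j : Fin s) v)]
    exact prod_eq_one fun j _ => h1 _
  rw [e3, mul_one]

open Classical in
/-- one coordinate -/
lemma one_coord (f : ℕ → ℂ) (hf : ∀ n, ‖f n‖ ≤ 1) (hs : SupSmall f) (s : ℕ) (δ : ℝ) (hδ : 0 < δ) (B K T W U : ℕ) (κ : ℤ) (hκ : κ ≠ 0) :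
    ∃ N₀ : ℕ, ∀ N, N₀ ≤ N → ∀ (Ω : Finset ℕ) (p : ℕ → ℝ), Sm δ B K N Ω p → ∀ c : ℤ, |c| ≤ B * N →
    ∀ L : ℕ, (L : ℝ) ≤ Real.log N ^ T → ∀ (i : Fin s) (a : Fin s → ℕ) (θ : Fin L → ℕ → ℂ),
      (∀ j, 1 ≤ a j) → (∀ l n, ‖θ l n‖ ≤ Real.log N ^ T) → ∀ z : Fin s → ℤ,
      ∑ w ∈ Ω, (if ∃ y' : Fin s → ℤ, (∀ j, j ≠ i → ((|y' j - z j| : ℤ) : ℝ) ≤ Real.log N ^ W) ∧
        ((|y' i - (c + κ * w)| : ℤ) : ℝ) ≤ Real.log N ^ W ∧
        ∃ I : Finset (Fin s), i ∈ I ∧ ∃ l, ∃ x : ℕ, (∀ i ∈ I, a i * x ≤ B * N) ∧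
          (N : ℝ) / Real.log N ^ U < ‖∑ n ∈ Icc 1 x, θ l n * ∏ i ∈ I, exI f (a i * n + y' i)‖ then p w else 0) ≤
        1 / Real.log N ^ U := by
  obtain ⟨N1, h1⟩ := one_shift f hf hs δ hδ B K (T + (W + 2) * s + s) W U κ hκ
  obtain ⟨N2, h2⟩ := ev_L' 2
  refine ⟨N1 + N2, fun N hN Ω p hL c hc L hLT i a θ ha hθ z => ?_⟩
  have hl2 := h2 N (by omega)
  have h1' := h1 N (by omega) Ω p hL c hc
  obtain ⟨k, hk⟩ : ∃ k, k = Real.log (N : ℝ) := ⟨_, rfl⟩
  rw [← hk] at hl2 h1' hLT hθ ⊢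
  have hk1 : 1 ≤ k := by linarith
  obtain ⟨w, hw⟩ : ∃ w : ℕ, w = ⌊k ^ W⌋₊ := ⟨_, rfl⟩
  have hwk : (w : ℝ) ≤ k ^ W := by rw [hw]; exact Nat.floor_le (by positivity)
  have hkW1 : (1 : ℝ) ≤ k ^ W := one_le_pow₀ hk1
  have hmemw : ∀ t : ℤ, ((|t| : ℤ) : ℝ) ≤ k ^ W → t ∈ Icc (-(w : ℤ)) w := by
    intro t ht
    rw [mem_Icc, ← abs_le]
    have e2 : ((|t|.toNat : ℕ) : ℤ) = |t| := Int.toNat_of_nonneg (abs_nonneg t)
    have e1 : |t|.toNat ≤ w := by
      rw [hw]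
      apply Nat.le_floor
      have e3 : ((|t|.toNat : ℕ) : ℝ) = ((|t| : ℤ) : ℝ) := by exact_mod_cast congrArg (Int.cast : ℤ → ℝ) e2
      rw [e3]
      exact ht
    rw [← e2]
    exact_mod_cast e1
  -- the index set of the weights
  obtain ⟨J, hJ⟩ : ∃ J : Finset (Fin L × Finset (Fin s) × (Fin s → ℤ)), J = univ ×ˢ univ ×ˢ
    Fintype.piFinset (fun _ : Fin s => Icc (-(w : ℤ)) w) := ⟨_, rfl⟩
  have hJc : (J.card : ℝ) ≤ k ^ (T + (W + 2) * s + s) := by
    rw [hJ, card_product, card_product, card_univ, card_univ, Fintype.card_fin, Fintype.card_finset, Fintype.card_fin,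
      Fintype.card_piFinset_const, Int.card_Icc]
    have e0 : ((w : ℤ) + 1 - -(w : ℤ)).toNat = 2 * w + 1 := by omega
    rw [e0]
    push_cast
    have e1 : 2 * (w : ℝ) + 1 ≤ k ^ (W + 2) := by
      rw [pow_add]
      have e5 : (4 : ℝ) ≤ k ^ 2 := by nlinarith
      have e6 : k ^ W * 4 ≤ k ^ W * k ^ 2 := mul_le_mul_of_nonneg_left e5 (by linarith)
      linarith
    have e5 : (2 : ℝ) ^ s ≤ k ^ s := pow_le_pow_left₀ (by norm_num) hl2 s
    calc (L : ℝ) * (2 ^ s * (2 * (w : ℝ) + 1) ^ s) ≤ k ^ T * (k ^ s * (k ^ (W + 2)) ^ s) := by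
          apply mul_le_mul hLT _ (by positivity) (by positivity)
          apply mul_le_mul e5 _ (by positivity) (by positivity)
          exact pow_le_pow_left₀ (by positivity) e1 s
      _ = _ := by rw [← pow_mul, ← pow_add, ← pow_add]; congr 1; ring
  obtain ⟨G, hG⟩ : ∃ G : ℕ → ℕ → ℂ, G = fun q n => if h : q < J.card then θ (J.equivFin.symm ⟨q, h⟩).1.1 n *
      ∏ j ∈ (J.equivFin.symm ⟨q, h⟩).1.2.1.erase i, exI f (a j * n + (z j + (J.equivFin.symm ⟨q, h⟩).1.2.2 j)) else 0 := ⟨_, rfl⟩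
  apply h1' J.card hJc (fun _ => a i) G (fun _ _ => ha i)
  · intro q hq n _ _
    rw [hG]
    simp only [hq, dif_pos]
    rw [norm_mul, norm_prod]
    calc _ ≤ k ^ T * 1 := mul_le_mul (hθ _ _) (prod_le_one (fun _ _ => norm_nonneg _) fun _ _ => exI_norm f hf _)
          (prod_nonneg fun _ _ => norm_nonneg _) (by positivity)
      _ ≤ k ^ (T + (W + 2) * s + s) := by
        rw [mul_one]
        exact pow_le_pow_right₀ hk1 (by omega)
  · rintro v _ ⟨y', g1, g2, I, hiI, l, x, hx, hbig⟩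
    refine ⟨y' i - (c + κ * v), g2, ?_⟩
    obtain ⟨t, ht⟩ : ∃ t : Fin s → ℤ, t = fun j => if j = i then 0 else y' j - z j := ⟨_, rfl⟩
    have hmem : (l, I, t) ∈ J := by
      rw [hJ, mem_product, mem_product, Fintype.mem_piFinset]
      refine ⟨mem_univ _, mem_univ _, fun j => ?_⟩
      apply hmemw
      rw [ht]
      simp only
      split_ifs with hj
      · rw [abs_zero]; push_cast; linarith
      · exact g1 j hj
    refine ⟨(J.equivFin ⟨(l, I, t), hmem⟩ : ℕ), (J.equivFin ⟨(l, I, t), hmem⟩).2, x, hx i hiI, ?_⟩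
    refine lt_of_lt_of_eq hbig ?_
    congr 1
    apply sum_congr rfl
    intro n _
    rw [hG]
    have hlt : (J.equivFin ⟨(l, I, t), hmem⟩ : ℕ) < J.card := (J.equivFin ⟨(l, I, t), hmem⟩).2
    simp only [hlt, dif_pos, Fin.eta, Equiv.symm_apply_apply]
    rw [← mul_prod_erase I _ hiI, mul_comm (exI f (a i * n + y' i)), ← mul_assoc]
    congr 2
    · apply prod_congr rfl
      intro j hj
      rw [mem_erase] at hj
      rw [ht]
      simp only [if_neg hj.1]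
      congr 2
      ring
    · push_cast
      ring

open Classical in
/-- **correlations with several random shifts** -/
theorem tuples (f : ℕ → ℂ) (hf : ∀ n, ‖f n‖ ≤ 1) (hs : SupSmall f) (s : ℕ) (δ : ℝ) (hδ : 0 < δ) (B K T W U : ℕ)
    (κ : Fin s → ℤ) (hκ : ∀ i, κ i ≠ 0) :
    ∃ N₀ : ℕ, ∀ N, N₀ ≤ N → ∀ (Ω : Fin s → Finset ℕ) (p : Fin s → ℕ → ℝ), (∀ i, Sm δ B K N (Ω i) (p i)) →
    ∀ c : Fin s → ℤ, (∀ i, |c i| ≤ B * N) →
    ∀ L : ℕ, (L : ℝ) ≤ Real.log N ^ T → ∀ (a : Fin s → ℕ) (θ : Fin L → ℕ → ℂ),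
      (∀ j, 1 ≤ a j) → (∀ l n, ‖θ l n‖ ≤ Real.log N ^ T) →
      ∑ v ∈ Fintype.piFinset Ω, (if ∃ y' : Fin s → ℤ, (∀ j, ((|y' j - (c j + κ j * v j)| : ℤ) : ℝ) ≤ Real.log N ^ W) ∧
        ∃ I : Finset (Fin s), I.Nonempty ∧ ∃ l, ∃ x : ℕ, (∀ i ∈ I, a i * x ≤ B * N) ∧
          (N : ℝ) / Real.log N ^ U < ‖∑ n ∈ Icc 1 x, θ l n * ∏ i ∈ I, exI f (a i * n + y' i)‖ then ∏ i, p i (v i) else 0) ≤
        1 / Real.log N ^ U := by
  choose k₀ h0 using fun i => one_coord f hf hs s δ hδ B K T W (U + 1) (κ i) (hκ i)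
  choose k₁ h1 using fun i => sm_FLz δ hδ B K 1 0 (κ i) le_rfl (hκ i)
  choose k₂ h2 using h1
  obtain ⟨k₃, h3⟩ := ev_L' (s + 1)
  refine ⟨∑ i, k₀ i + ∑ i, k₂ i + k₃ + 1, fun N hN Ω p hp c hc L hL a θ ha hθ => ?_⟩
  have hl := h3 N (by omega)
  have hk0 : ∀ i, k₀ i ≤ N := fun i => by
    have := single_le_sum (f := k₀) (fun _ _ => Nat.zero_le _) (mem_univ i)
    omega
  have hk2 : ∀ i, k₂ i ≤ N := fun i => by
    have := single_le_sum (f := k₂) (fun _ _ => Nat.zero_le _) (mem_univ i)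
    omega
  have hp0 : ∀ i, ∀ v ∈ Ω i, 0 ≤ p i v := fun i v hv => (h2 i N (hk2 i) (Ω i) (p i) (hp i) 0).2.2.nonneg v hv
  have hp1 : ∀ i, ∑ v ∈ Ω i, p i v = 1 := fun i => (h2 i N (hk2 i) (Ω i) (p i) (hp i) 0).2.1
  obtain ⟨k, hk⟩ : ∃ k, k = Real.log (N : ℝ) := ⟨_, rfl⟩
  have h0' := fun i => h0 i N (hk0 i) (Ω i) (p i) (hp i) (c i) (hc i) L hL i a θ ha hθ
  rw [← hk] at hl h0' hL hθ ⊢
  have hs0 : (0 : ℝ) ≤ s := Nat.cast_nonneg _
  have hk1 : (1 : ℝ) ≤ k := by linarith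
  have hsk : (s : ℝ) ≤ k := by linarith
  obtain ⟨E, hE⟩ : ∃ E : Fin s → (Fin s → ℕ) → Prop, E = fun i v => ∃ y' : Fin s → ℤ,
        (∀ j, ((|y' j - (c j + κ j * v j)| : ℤ) : ℝ) ≤ k ^ W) ∧
        ∃ I : Finset (Fin s), i ∈ I ∧ ∃ l, ∃ x : ℕ, (∀ i ∈ I, a i * x ≤ B * N) ∧
          (N : ℝ) / k ^ (U + 1) < ‖∑ n ∈ Icc 1 x, θ l n * ∏ i ∈ I, exI f (a i * n + y' i)‖ := ⟨_, rfl⟩
  have hfub : ∀ i, ∑ v ∈ Fintype.piFinset Ω, (if E i v then ∏ j, p j (v j) else 0) ≤ 1 / k ^ (U + 1) := by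
    intro i
    apply fub i Ω p hp0 hp1 (E i)
    intro v _
    refine le_trans (sum_le_sum fun w hw => ?_) (h0' i (fun j => c j + κ j * (v j : ℕ)))
    have hpw := hp0 i w hw
    by_cases hEw : E i (Function.update v i w)
    · rw [if_pos hEw, if_pos]
      rw [hE] at hEw
      obtain ⟨y', h1, I, h2⟩ := hEw
      refine ⟨y', fun j hj => ?_, ?_, I, h2⟩
      · have := h1 j
        rwa [Function.update_of_ne hj] at this
      · have := h1 i
        rwa [Function.update_self] at this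
    · rw [if_neg hEw]
      split_ifs
      · exact hpw
      · exact le_rfl
  have hbound : ∀ v ∈ Fintype.piFinset Ω,
      (if ∃ y' : Fin s → ℤ, (∀ j, ((|y' j - (c j + κ j * v j)| : ℤ) : ℝ) ≤ k ^ W) ∧
        ∃ I : Finset (Fin s), I.Nonempty ∧ ∃ l, ∃ x : ℕ, (∀ i ∈ I, a i * x ≤ B * N) ∧
          (N : ℝ) / k ^ U < ‖∑ n ∈ Icc 1 x, θ l n * ∏ i ∈ I, exI f (a i * n + y' i)‖ then ∏ i, p i (v i) else 0) ≤
        ∑ i, (if E i v then ∏ j, p j (v j) else 0) := by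
    intro v hv
    rw [Fintype.mem_piFinset] at hv
    have hpp : 0 ≤ ∏ j, p j (v j) := prod_nonneg fun j _ => hp0 j _ (hv j)
    have hn : 0 ≤ ∑ i, (if E i v then ∏ j, p j (v j) else 0) := sum_nonneg fun i _ => by
      split_ifs
      · exact hpp
      · exact le_rfl
    by_cases hS : ∃ y' : Fin s → ℤ, (∀ j, ((|y' j - (c j + κ j * v j)| : ℤ) : ℝ) ≤ k ^ W) ∧
        ∃ I : Finset (Fin s), I.Nonempty ∧ ∃ l, ∃ x : ℕ, (∀ i ∈ I, a i * x ≤ B * N) ∧
          (N : ℝ) / k ^ U < ‖∑ n ∈ Icc 1 x, θ l n * ∏ i ∈ I, exI f (a i * n + y' i)‖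
    · rw [if_pos hS]
      obtain ⟨y', h1, I, hI, l, x, hx, hbig⟩ := hS
      obtain ⟨i, hi⟩ := hI
      have hEi : E i v := by
        rw [hE]
        refine ⟨y', h1, I, hi, l, x, hx, lt_of_le_of_lt ?_ hbig⟩
        apply div_le_div_of_nonneg_left (by positivity) (by positivity)
        exact pow_le_pow_right₀ hk1 (by omega)
      have := single_le_sum (f := fun i => if E i v then ∏ j, p j (v j) else 0) (fun i _ => by
        by_cases h : E i v
        · simp only [if_pos h]; exact hpp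
        · simp only [if_neg h]; exact le_rfl) (mem_univ i)
      simp only [if_pos hEi] at this
      exact this
    · rw [if_neg hS]
      exact hn
  refine (sum_le_sum hbound).trans ?_
  rw [sum_comm]
  refine (sum_le_sum fun i _ => hfub i).trans ?_
  rw [sum_const, card_univ, Fintype.card_fin, nsmul_eq_mul, pow_succ]
  rw [mul_one_div, div_le_div_iff₀ (by positivity) (by positivity)]
  nlinarith [pow_pos (by linarith : (0 : ℝ) < k) U]

end Pool.Agent.N469.SL
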